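import Pool.Agent.MP_1246c0_nt.H25.SpecN
import Pool.Agent.MP_1246c0_nt.H75.EQ

/-! Equidistribution of the matrices of symbols in mixed layers. -/

namespace Pool.Agent.MP_1246c0_nt.H25

open Finset Pool.Agent.MP_1246c0_nt.H12

namespace EQ2

theorem sum_val {M : Type} [AddCommMonoid M] (N : ℕ) [NeZero N] (F : ℕ → M) :
    ∑ k : ZMod N, F k.val = ∑ i ∈ range N, F i :=
  sum_nbij' ZMod.val (fun i => (i : ZMod N)) (by simp [ZMod.val_lt]) (by simp) (by simp)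
    (fun _ hi => ZMod.val_cast_of_lt (mem_range.1 hi)) fun _ _ => rfl

/-- extension by zero -/
def xt (n : ℕ) {a : ℕ} (f : Co a) : Co n := fun k => if k.val < 2 ^ a then f k.val else 0

theorem sum_xt {M : Type} [AddCommMonoid M] {a n : ℕ} (h : a ≤ n) (f : Co a) (G : F2 → ℕ → M)
    (h0 : ∀ k, G 0 k = 0) :
    ∑ k : ZMod (2 ^ n), G (xt n f k) k.val = ∑ k : ZMod (2 ^ a), G (f k) k.val := by
  have e := sum_val (2 ^ a) fun i => G (f i) i
  simp only [ZMod.natCast_zmod_val] at e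
  rw [e]
  refine (sum_val (2 ^ n) fun i => G (if i < 2 ^ a then f i else 0) i).trans
    (Eq.symm (sum_subset_zero_on_sdiff (range_mono (Nat.pow_le_pow_right two_pos h))
      (fun i hi => ?_) fun i hi => ?_))
  · rw [if_neg (mem_range.not.1 (mem_sdiff.1 hi).2), h0]
  · rw [if_pos (mem_range.1 hi)]

section Ring

variable {Λ : Type} [CommRing Λ] {st : Λ →+* Λ} {au : Λ →+* F2} {g : Λ} {n m : ℕ}

theorem cv_xt {a : ℕ} (h : a ≤ n) (f : Co a) : cv g (xt n f) = cv g f :=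
  sum_xt h f (fun t k => (t.val : Λ) * g ^ k) (by simp)

theorem pow_two (h : (2 : Λ) = 0) (g : Λ) (a : ℕ) : (g - 1) ^ 2 ^ a = g ^ 2 ^ a - 1 := by
  induction a with
  | zero => simp
  | succ a ih =>
    rw [pow_succ, pow_mul, pow_mul, ih]
    linear_combination (1 - g ^ 2 ^ a) * h

theorem st_dvd (hG : LG st au g (2 ^ n)) {N : ℕ} {x : Λ} (h : (g - 1) ^ N ∣ x) :
    (g - 1) ^ N ∣ st x := by
  refine dvd_trans ?_ (map_dvd st h)
  rw [map_pow, map_sub, map_one]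
  exact pow_dvd_pow_of_dvd ⟨-st g, by linear_combination hG.sg⟩ N

/-- reduction to a smaller layer -/
theorem red (hL : SLAM) (hG : LG st au g (2 ^ n)) {a : ℕ} (h : a ≤ n) (x : Λ) :
    ∃ f : Co n, (∀ k, ¬k.val < 2 ^ a → f k = 0) ∧ (g - 1) ^ 2 ^ a ∣ x - cv g f := by
  obtain ⟨f, rfl⟩ := hG.bij.2 x
  have h0 : ∃ f : Co n, (∀ k, ¬k.val < 2 ^ a → f k = 0) ∧ (g - 1) ^ 2 ^ a ∣ 0 - cv g f :=
    ⟨0, fun _ _ => rfl, by simp [cv]⟩
  refine sum_induction _ (fun x => ∃ f : Co n, (∀ k, ¬k.val < 2 ^ a → f k = 0) ∧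
    (g - 1) ^ 2 ^ a ∣ x - cv g f) ?_ h0 fun k _ => ?_
  · rintro x y ⟨f, a1, a2⟩ ⟨f', b1, b2⟩
    refine ⟨f + f', fun k hk => by rw [Pi.add_apply, a1 k hk, b1 k hk, add_zero], ?_⟩
    rw [hL.add Λ _ g f f' hG.lr.two, add_sub_add_comm]
    exact dvd_add a2 b2
  · have l : k.val % 2 ^ a < 2 ^ a := Nat.mod_lt _ (by positivity)
    have v : ((k.val % 2 ^ a : ℕ) : ZMod (2 ^ n)).val = k.val % 2 ^ a :=
      ZMod.val_cast_of_lt (l.trans_le (Nat.pow_le_pow_right two_pos h))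
    refine ⟨Pi.single (k.val % 2 ^ a : ℕ) (f k), fun j hj => Pi.single_eq_of_ne (fun e => hj ?_) _, ?_⟩
    · rwa [e, v]
    · rw [cv, Fintype.sum_eq_single ((k.val % 2 ^ a : ℕ) : ZMod (2 ^ n)) fun j hj => by
        simp [Pi.single_eq_of_ne hj], Pi.single_eq_same, v, ← mul_sub, pow_two hG.lr.two]
      refine Dvd.dvd.mul_left ?_ _
      conv_rhs => rw [← Nat.mod_add_div k.val (2 ^ a), pow_add, pow_mul, Nat.mod_add_div,
        ← mul_sub_one]
      exact (sub_one_dvd_pow_sub_one _ _).mul_left _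

/-- the order of the positions -/
def Lt : Option (Fin m) → Option (Fin m) → Prop
  | _, none => False
  | none, some _ => True
  | some i, some j => i < j

/-- the layer of a pair -/
def ly {ι : Type} (lv : ι → ℕ) (n : ℕ) (x y : ι) : ℕ := min (min (lv x) (lv y)) n

theorem ly_le {ι : Type} (lv : ι → ℕ) (n : ℕ) (x y : ι) : ly lv n x y ≤ n := min_le_right _ _

theorem ly_comm {ι : Type} (lv : ι → ℕ) (n : ℕ) (x y : ι) : ly lv n x y = ly lv n y x := by
  rw [ly, ly, min_comm (lv x)]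

open Classical in
/-- the positions in use -/
noncomputable def KQ (lv : Option (Fin m) → ℕ) (n : ℕ) : Finset (EQ.Ix m (ZMod (2 ^ n))) :=
  univ.filter fun q => Lt q.1 q.2.1 ∧ q.2.2.val < 2 ^ ly lv n q.1 q.2.1

theorem mem_KQ {lv : Option (Fin m) → ℕ} {x y : Option (Fin m)} {k : ZMod (2 ^ n)} :
    (x, y, k) ∈ KQ lv n ↔ Lt x y ∧ k.val < 2 ^ ly lv n x y := by simp [KQ]

/-- negligible matrices -/
def Nz {σ : Type} (g : Λ) (n : ℕ) (lv : Option (Fin m) → ℕ)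
    (H : Matrix (σ ⊕ Fin m) (σ ⊕ Fin m) Λ) : Prop :=
  (∀ l y, H (.inl l) y = 0 ∧ H y (.inl l) = 0) ∧
    ∀ i j, (g - 1) ^ 2 ^ ly lv n (some i) (some j) ∣ H (.inr i) (.inr j)

theorem lm_sur {σ : Type} [Fintype σ] [DecidableEq σ] (hL : SLAM) (hG : LG st au g (2 ^ n)) {c : Co n →+ Λ}
    (hc : ∀ f, cv g f = c f) (lv : Option (Fin m) → ℕ) {B : Finset (σ ⊕ Fin m)}
    (hB : ∀ l, Sum.inl l ∉ B) {H : Matrix (σ ⊕ Fin m) (σ ⊕ Fin m) Λ} (hH : H ∈ Hs st B B) :
    ∃ ρ ∈ Sup (KQ lv n), Nz g n lv (H - EQ.Lm σ c st univ ρ) := by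
  classical
  obtain ⟨k1, k2, k3⟩ := hH
  have h0 := hG.lr.two
  choose f f1 f2 using fun i j => red hL hG (ly_le lv n (some i) (some j)) (H (.inr i) (.inr j))
  have h4 : ∀ l, ∃ t : F2, H l l = (t.val : Λ) := fun l => by
    obtain ⟨n, hn⟩ := k2 l
    obtain ⟨k, rfl | rfl⟩ := Int.even_or_odd' n
    · exact ⟨0, by simp [hn, h0]⟩
    · exact ⟨1, by simp [hn, h0, ZMod.val_one]⟩
  choose t ht using h4
  let ρ : EQ.Ix m (ZMod (2 ^ n)) → F2 := fun q =>
    q.1.elim 0 fun i => q.2.1.elim 0 fun j => if i < j then f i j q.2.2 else 0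
  let ρ' : EQ.Ix m (ZMod (2 ^ n)) → F2 := fun q => if q.2.2 = 0 then
    q.1.elim (q.2.1.elim 0 fun j => t (.inr j) - EQ.dg ρ j) fun _ => 0 else 0
  have e1 : ∀ i j, i < j → EQ.ro (ρ + ρ') i j = f i j := fun i j h => by
    funext k
    simp [EQ.ro, ρ, ρ', h]
  have e2 : ∀ i, EQ.dg (ρ + ρ') i = t (.inr i) := fun i => by
    have : EQ.dg ρ' i = t (.inr i) - EQ.dg ρ i := by
      rw [EQ.dg, Fintype.sum_option]
      simp [ρ']
    rw [eq_sub_iff_add_eq'.1 this |>.symm]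
    simp only [EQ.dg, Pi.add_apply, sum_add_distrib]
    abel
  refine ⟨ρ + ρ', ?_, fun l y => ⟨?_, ?_⟩, fun i j => ?_⟩
  · rintro ⟨_ | i, _ | j, k⟩ hq <;> simp only [mem_KQ, Lt, true_and, not_and] at hq
    · simp [ρ, ρ']
    · have : k ≠ 0 := fun e => hq (by simp [e])
      simp [ρ, ρ', this]
    · simp [ρ, ρ']
    · simpa [ρ, ρ'] using fun h => f1 i j k (hq h)
  · rw [Matrix.sub_apply, EQ.Lm_l, k3 _ _ fun h => hB _ h.1, sub_zero]
  · rw [Matrix.sub_apply, EQ.Lm_r, k3 _ _ fun h => hB _ h.2.1, sub_zero]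
  · rw [Matrix.sub_apply, EQ.Lm_rr, EQ.En, if_pos ⟨mem_univ _, mem_univ _⟩]
    split_ifs with a b
    · rw [e1 i j a, ← hc]
      exact f2 i j
    · rw [e1 j i b, ← hc, k1, ← map_sub, ly_comm]
      exact st_dvd hG (f2 j i)
    · obtain rfl : i = j := le_antisymm (not_lt.1 b) (not_lt.1 a)
      rw [e2, ← hc, hL.one, ht, sub_self]
      exact dvd_zero _

theorem ex_eq {Sg : Finset ℕ} [Finite Λ] (hA : SAVG) (hL : SLAM) (hG : LG st au g (2 ^ n))
    {c : Co n →+ Λ} (hc : ∀ f, cv g f = c f) (lv : Option (Fin m) → ℕ)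
    (F : Matrix (Sg ⊕ Fin m) (Sg ⊕ Fin m) Λ → ℝ) (hF : ∀ M H, Nz g n lv H → F (M + H) = F M) :
    Ex (Sup (KQ lv n)) (fun ρ => F (EQ.Lm Sg c st univ ρ)) = Ex (Hs st (BB Sg m) (BB Sg m)) F := by
  have e4 : ∀ x : F2, c (Pi.single 0 x) = (x.val : Λ) := fun x => (hc _).symm.trans (hL.one Λ _ g x)
  have key : ∀ H ∈ Hs st (BB Sg m) (BB Sg m),
      (Ex ((Sup (KQ lv n)).map (EQ.Lm Sg c st univ)) fun h => F (H + h)) =
        Ex ((Sup (KQ lv n)).map (EQ.Lm Sg c st univ)) F := fun H hH => by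
    obtain ⟨ρ, h1, h2⟩ := lm_sur hL hG hc lv (by simp [BB]) hH
    rw [← EQ.ex_shift _ F (AddSubgroup.mem_map_of_mem _ h1)]
    congr 1
    funext h
    rw [← hF (EQ.Lm Sg c st univ ρ + h) _ h2]
    congr 1
    abel
  rw [hA.map, hA.sub _ (Hs st (BB Sg m) (BB Sg m)) ((Sup (KQ lv n)).map (EQ.Lm Sg c st univ)) F (by
    rintro _ ⟨ρ, -, rfl⟩
    exact EQ.Lm_mem hG.lr.inv e4 (by simp [BB]) ρ), ← hA.const _ (Hs st (BB Sg m) (BB Sg m)) (Ex _ F)]
  exact le_antisymm (hA.mono _ _ _ _ fun H hH => (key H hH).ge) (hA.mono _ _ _ _ fun H hH => (key H hH).le)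

/-- the symbols in use -/
noncomputable def bb (D : ∀ n, Dat n) (n : ℕ) (lv : Option (Fin m) → ℕ) (x y : Option (Fin m))
    (q q' : ℕ) (k : ZMod (2 ^ n)) : F2 := (D (ly lv n x y)).rr q q' (k.val : ℕ)

/-- the entry of a pair of primes -/
noncomputable def RX (D : ∀ n, Dat n) (n : ℕ) (g : Λ) (q q' : ℕ) : Λ :=
  cv g ((D (min (min (lev q) (lev q')) n)).rr q q')

/-- the own entry of a prime -/
noncomputable def OX (D : ∀ n, Dat n) (n : ℕ) (g : Λ) (q : ℕ) : Λ :=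
  cv g ((D (min (min (lev q) (lev q)) n)).ow q)

variable {D : ∀ n, Dat n} {Sg : Finset ℕ} {lv p p' : Option (Fin m) → ℕ} {c : Co n →+ Λ}

theorem MX_eq {ι : Type} [Fintype ι] [DecidableEq ι] (hL : SLAM) (h0 : (2 : Λ) = 0)
    (hc : ∀ f, cv g f = c f) (pr : ι → ℕ) (P : ℕ) (i j : ι) : MX D n g pr P i j =
    if pr i = pr j then OX D n g (pr i) +
      c (Pi.single 0 (∑ c ∈ (SP pr P).erase (pr i), lg c (pr i))) else RX D n g (pr i) (pr j) := by
  rw [MX, Dat.Rc]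
  split_ifs with h
  · rw [hL.add Λ _ g _ _ h0, hL.one, ← hc, hL.one]
    exact congrArg (fun q => cv g ((D (min (min (lev (pr i)) (lev q)) n)).ow (pr i)) + _) h.symm
  · rfl

open Classical in
theorem rho_eq (x y : Option (Fin m)) : (fun k => rho (KQ lv n) (bb D n lv) p (x, y, k)) =
    if Lt x y then xt n ((D (ly lv n x y)).rr (p x) (p y)) else 0 := by
  funext k
  by_cases h : Lt x y <;> simp [rho, mem_KQ, xt, bb, h]

open Classical in
theorem sum_rho (h : EQ.Adm Sg 0 univ p) (hT : SDAT) (hl : ∀ x, lev (p x) = lv x)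
    (x y : Option (Fin m)) (hxy : Lt x y → x ≠ y) :
    ∑ k, rho (KQ lv n) (bb D n lv) p (x, y, k) = if Lt x y then lg (p x) (p y) else 0 := by
  rw [show (∑ k, rho (KQ lv n) (bb D n lv) p (x, y, k)) = ∑ k, (fun k =>
    rho (KQ lv n) (bb D n lv) p (x, y, k)) k from rfl, rho_eq]
  split_ifs with e
  · refine (sum_xt (ly_le lv n x y) _ (fun t _ => t) fun _ => rfl).trans (hT.ar _ _ _ _
      ⟨(h.gd _).1, (h.gd _).2.1, ?_⟩ ⟨(h.gd _).1, (h.gd _).2.1, ?_⟩ (h.inj.ne (hxy e)))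
    · exact hl x ▸ (min_le_left _ _).trans (min_le_left _ _)
    · exact hl y ▸ (min_le_left _ _).trans (min_le_right _ _)
  · simp

theorem lt_ne {x y : Option (Fin m)} (h : Lt x y) : x ≠ y ∧ ¬Lt y x := by
  rcases x with _ | i <;> rcases y with _ | j
  exacts [h.elim, ⟨by simp, id⟩, h.elim, ⟨fun e => h.ne (Option.some_injective _ e), h.not_gt⟩]

theorem dg_eq (h : EQ.Adm Sg 0 univ p) (hQ : SQR) (hT : SDAT) (hl : ∀ x, lev (p x) = lv x)
    (i : Fin m) : EQ.dg (rho (KQ lv n) (bb D n lv) p) i = ∑ x, lg (p x) (p (some i)) +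
      ∑ j, if i < j then eps (p (some i)) * eps (p (some j)) else 0 := by
  simp only [EQ.dg, sum_add_distrib, fun x y => sum_rho (n := n) (D := D) h hT hl x y
    fun e => (lt_ne e).1]
  rw [Fintype.sum_option, Fintype.sum_option, Fintype.sum_option, add_add_add_comm,
    ← sum_add_distrib, add_assoc (lg _ _), ← sum_add_distrib]
  congr 1
  · simp [Lt]
  refine sum_congr rfl fun j _ => ?_
  rcases lt_trichotomy i j with e | rfl | e
  · have h2 := hQ.rcp _ _ (h.gd _) (h.gd _)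
      (h.inj.ne fun e' => e.ne (Option.some_injective _ e') : p (some i) ≠ p (some j))
    simp only [Lt, e, e.not_gt, if_true, if_false, zero_add, ← h2]
    rw [add_left_comm, CharTwo.add_self_eq_zero, add_zero]
  · simp [Lt, EQ.lg_self]
  · simp [Lt, e, e.not_gt]

theorem ent {S : Sy} (h : EQ.Adm Sg 0 univ p) (hL : SLAM) (hQ : SQR) (hT : SDAT) (hS : SSY2)
    (hX : Ax S) (hG : LG st au g (2 ^ n)) (hc : ∀ f, cv g f = c f) (hg : ∀ l ∈ Sg, Gd 0 l)
    (hl : ∀ x, lev (p x) = lv x) (i j : Fin m) :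
    (g - 1) ^ 2 ^ ly lv n (some i) (some j) ∣ MX S.D n g (EQ.pr Sg p) (p none) (.inr i) (.inr j) -
      EQ.En c st univ (rho (KQ lv n) (bb S.D n lv) p) i j - if i < j then 0 else
      if j < i then st (cX S.D n g (p (some i))) * cX S.D n g (p (some j)) else
        OX S.D n g (p (some i)) + c (Pi.single 0 (∑ l' : Sg, lg l' (p (some i)) -
          ∑ j, if i < j then eps (p (some i)) * eps (p (some j)) else 0)) := by
  obtain rfl : lv = fun x => lev (p x) := (funext hl).symm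
  have e1 : ∀ i j, i < j → c (EQ.ro (rho (KQ (fun x => lev (p x)) n)
      (bb S.D n fun x => lev (p x)) p) i j) =
      MX S.D n g (EQ.pr Sg p) (p none) (.inr i) (.inr j) := by
    intro i j e
    unfold EQ.ro
    rw [MX_eq hL hG.lr.two hc, if_neg fun e' => e.ne (Sum.inr_injective (h.pinj e')), rho_eq,
      if_pos (show Lt (some i) (some j) from e), ← hc, cv_xt (ly_le _ _ _ _)]
    rfl
  rw [EQ.En, if_pos ⟨mem_univ _, mem_univ _⟩]
  split_ifs with e e'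
  · rw [e1 i j e, sub_self, sub_zero]
    exact dvd_zero _
  · have h1 := hS.sym _ Λ S st au g n (EQ.pr Sg p) (p none) hX hG h.pinj (by
      rintro (l | i)
      exacts [hg _ l.2, h.gd _]) (.inr i) (mem_univ _) (.inr j) (mem_univ _)
    rw [if_neg fun e'' => e'.ne' (Sum.inr_injective e''), add_zero] at h1
    rw [e1 j i e']
    rwa [sub_eq_add_neg (MX _ _ _ _ _ _ _), neg_eq_of_add_eq_zero_left (a := st _)
      (by rw [← two_mul, hG.lr.two, zero_mul])]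
  · obtain rfl : i = j := le_antisymm (not_lt.1 e') (not_lt.1 e)
    rw [MX_eq hL hG.lr.two hc, if_pos rfl, h.sum, dg_eq h hQ hT hl, add_sub_assoc, ← map_sub,
      ← Pi.single_sub]
    simp only [prs, Sum.elim_inr, add_sub_add_comm, sub_self, zero_add, sub_add_sub_cancel]
    exact dvd_zero _

/-- two primes with the same own data -/
structure Same (D : ∀ n, Dat n) (n : ℕ) (g : Λ) (Sg : Finset ℕ) (q q' : ℕ) : Prop where
  ep : eps q = eps q'
  cc : cX D n g q = cX D n g q'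
  ow : OX D n g q = OX D n g q'
  r1 : ∀ l : Sg, RX D n g q l = RX D n g q' l
  r2 : ∀ l : Sg, RX D n g l q = RX D n g l q'
  l1 : ∀ l : Sg, lg q l = lg q' l
  l2 : ∀ l : Sg, lg l q = lg l q'

theorem nz {S : Sy} (h : EQ.Adm Sg 0 univ p) (h' : EQ.Adm Sg 0 univ p') (hL : SLAM) (hQ : SQR)
    (hT : SDAT) (hS : SSY2) (hX : Ax S) (hG : LG st au g (2 ^ n)) (hc : ∀ f, cv g f = c f)
    (hg : ∀ l ∈ Sg, Gd 0 l) (hl : ∀ x, lev (p x) = lv x) (hl' : ∀ x, lev (p' x) = lv x)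
    (s : ∀ x, Same S.D n g Sg (p x) (p' x)) :
    Nz g n lv ((MX S.D n g (EQ.pr Sg p) (p none) -
        EQ.Lm Sg c st univ (rho (KQ lv n) (bb S.D n lv) p)) - (MX S.D n g (EQ.pr Sg p') (p' none) -
        EQ.Lm Sg c st univ (rho (KQ lv n) (bb S.D n lv) p'))) := by
  refine ⟨fun l y => ?_, fun i j => ?_⟩
  · simp only [Matrix.sub_apply, EQ.Lm_l, EQ.Lm_r, sub_zero, sub_eq_zero, MX_eq hL hG.lr.two hc,
      h.sum, h'.sum]
    rcases y with y | j
    · simp only [prs, Sum.elim_inl, fun x => (s x).l1, and_self]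
    · simp [prs, (h.ne _ _).symm, (h'.ne _ _).symm, h.ne _ _, h'.ne _ _, (s _).r1, (s _).r2]
  · have a := ent h hL hQ hT hS hX hG hc hg hl i j
    have b := ent h' hL hQ hT hS hX hG hc hg hl' i j
    simp only [fun x => (s x).cc, fun x => (s x).ow, fun x => (s x).l2, fun x => (s x).ep] at a
    simpa only [Matrix.sub_apply, EQ.Lm_rr, sub_sub_sub_cancel_right] using dvd_sub a b

end Ring

end EQ2

open EQ2 in
theorem rowEQ2 : OfEQ2 := by
  intro hA hD hL hQ hT hU hS S n Λ Ω _ _ _ st au g ω Sg m T Y w w' δ Φ hX hG hg hw hw' hδ hB hΦ hC hI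
  classical
  have := Fintype.ofFinite Λ
  have hΛ : Fintype.card Λ = 2 ^ 2 ^ n := by
    simpa using (Fintype.card_congr (Equiv.ofBijective _ hG.bij)).symm
  let c : Co n →+ Λ := AddMonoidHom.mk' (cv g) fun f f' => hL.add Λ _ g f f' hG.lr.two
  let od : ℕ → Ω × Fin (Nat.log 2 T + 1) × F2 × Λ × Λ × (Sg → Λ × Λ × F2 × F2) :=
    fun q => (ω q, ⟨min (lev q) (Nat.log 2 T), Nat.lt_succ_of_le (min_le_right _ _)⟩, eps q,
      cX S.D n g q, OX S.D n g q, fun l => (RX S.D n g q l, RX S.D n g l q, lg q l, lg l q))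
  unfold TS
  rw [EQ.ts_split od]
  refine (abs_sum_le_sum_abs _ _).trans ((sum_le_card_nsmul _ _ (δ * T *
    (2 ^ ((m + 1) * ((m + 1) * 2 ^ n)) * (Real.log T + 2) ^ (m + 1))) fun o _ => ?_).trans ?_)
  swap
  · rw [nsmul_eq_mul, mul_left_comm, mul_assoc (δ * T)]
    refine mul_le_mul_of_nonneg_left (le_trans (le_of_eq ?_) (mul_le_mul_of_nonneg_left
      (EQ.num (2 ^ n) Sg.card m T) (by positivity))) (by positivity)
    simp only [card_univ, Fintype.card_fun, Fintype.card_prod, Fintype.card_fin, ZMod.card,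
      Fintype.card_option, Fintype.card_coe, hΛ]
    rw [mul_pow (Fintype.card Ω), Nat.cast_mul, Nat.cast_pow, mul_assoc]
  let lv : Option (Fin m) → ℕ := fun x => (o x).2.1
  set W : Option (Fin m) → ℕ → ℝ := fun x q =>
    if od q = o x then (x.elim w' fun _ => w) q else 0 with hWd
  have h0 : ∀ x : Option (Fin m), Wt Sg Y (x.elim w' fun _ => w) := by
    rintro (_ | _)
    exacts [hw', hw]
  have h6 : ∀ x q, W x q ≠ 0 → (x.elim w' fun _ => w) q ≠ 0 := fun x q h e =>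
    h (by simp only [hWd, e, ite_self])
  have h1 : ∀ x q, W x q ≠ 0 → od q = o x ∧ Gd 0 q ∧ Y < q ∧ q ∉ Sg := fun x q h =>
    ⟨by_contra fun e => h (if_neg e), (h0 x q).2.2 (h6 x q h)⟩
  have h2 : ∀ x q, |W x q| ≤ 1 := fun x q => by
    simp only [hWd]
    split_ifs
    · exact abs_le.2 ⟨by linarith [(h0 x q).1], (h0 x q).2.1⟩
    · simp
  have h3 : ∀ p : Option (Fin m) → ℕ, (∀ x, p x ≤ T) → (∀ x, W x (p x) ≠ 0) → ∀ x,
      lev (p x) = lv x := fun p k1 k2 x => by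
    obtain ⟨e, k3, -⟩ := h1 x _ (k2 x)
    simp only [lv]
    rw [← e]
    exact (min_eq_left (Nat.le_log_of_pow_le one_lt_two ((hD.cls _
      (k3.1.eq_two_or_odd.resolve_left k3.2.1) k3.1.one_lt).2.1.trans (k1 x)))).symm
  have h4 : ∀ p : Option (Fin m) → ℕ, Function.Injective p → (∀ x, W x (p x) ≠ 0) →
      EQ.Adm Sg 0 univ p := fun p k0 k2 =>
    ⟨k0, fun x => (h1 x _ (k2 x)).2.1, fun x => (h1 x _ (k2 x)).2.2.2, fun i => by simp⟩
  have h5 : ∀ x a, a ≤ lv x → ∀ q, W x q ≠ 0 → Gd a q ∧ Y < q := fun x a hi q hq => by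
    obtain ⟨e, k3, k4, -⟩ := h1 _ _ hq
    simp only [lv] at hi
    rw [← e] at hi
    exact ⟨⟨k3.1, k3.2.1, hi.trans (min_le_left _ _)⟩, k4⟩
  refine le_trans (b := 2 ^ (KQ lv n).card * δ * T *
    (Real.log T + 2) ^ Fintype.card (Option (Fin m))) ?_ ?_
  swap
  · rw [Fintype.card_option, Fintype.card_fin, mul_assoc (2 ^ _), mul_comm (2 ^ _), mul_assoc]
    have := Real.log_natCast_nonneg T
    gcongr
    · norm_num
    · simpa using card_le_univ (KQ lv n)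
  have key : ∀ Ψ : (Option (Fin m) → ℕ) → ℝ, (∃ Φ' : (EQ.Ix m (ZMod (2 ^ n)) → F2) → ℝ,
      (∀ ρ, |Φ' ρ| ≤ 1) ∧ ∀ p, Function.Injective p → (∀ x, p x ≤ T) → (∀ x, W x (p x) ≠ 0) →
      Ψ p = Φ' (rho (KQ lv n) (bb S.D n lv) p) - Ex (Sup (KQ lv n)) Φ') → |TS0 T W Ψ| ≤
      2 ^ (KQ lv n).card * δ * T * (Real.log T + 2) ^ Fintype.card (Option (Fin m)) := by
    rintro Ψ ⟨Φ', k1, k2⟩
    rw [EQ.ts_congr k2]
    refine hU _ _ (KQ lv n) (bb S.D n lv) W T δ Φ' hδ h2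
      (fun x => by_contra fun h => Nat.not_prime_zero (h1 x 0 h).2.1.1) k1 (fun x y k h =>
        ⟨(lt_ne (mem_KQ.1 h).1).1, fun k' h' => (lt_ne (mem_KQ.1 h).1).2 (mem_KQ.1 h').1⟩) ?_
    intro x y s hs hK u v hu hv T' hT'
    have e := hB _ (ly_le lv n x y) (s.image fun k => ((k.val : ℕ) : ZMod (2 ^ ly lv n x y)))
      (hs.image _) u v (fun q => (hu q).trans (h2 x q)) (fun q => (hv q).trans (h2 y q))
      (fun q h => h5 x _ ((min_le_left _ _).trans (min_le_left _ _)) q fun e =>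
        h (by simpa [e] using hu q))
      (fun q h => h5 y _ ((min_le_left _ _).trans (min_le_right _ _)) q fun e =>
        h (by simpa [e] using hv q)) T' hT'
    have i : Set.InjOn (fun k : ZMod (2 ^ n) => ((k.val : ℕ) : ZMod (2 ^ ly lv n x y))) s :=
      fun k hk k' hk' e => ZMod.val_injective _ (by
        simpa only [ZMod.val_cast_of_lt (mem_KQ.1 (hK k hk)).2,
          ZMod.val_cast_of_lt (mem_KQ.1 (hK k' hk')).2] using congrArg ZMod.val e)
    simpa only [sum_image i, bb] using e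
  refine key _ ?_
  by_cases hp : ∃ p : Option (Fin m) → ℕ, Function.Injective p ∧ (∀ x, p x ≤ T) ∧
    ∀ x, W x (p x) ≠ 0
  swap
  · exact ⟨fun _ => 0, by simp, fun p k0 k1 k2 => absurd ⟨p, k0, k1, k2⟩ hp⟩
  obtain ⟨p', l0, l1, l2⟩ := hp
  let f : Matrix (Sg ⊕ Fin m) (Sg ⊕ Fin m) Λ → ℝ := Φ fun i => p' (some i)
  have hf : ∀ M H, Nz g n lv H → f (M + H) = f M := fun M H ⟨a, b⟩ => by
    refine hI _ _ _ ?_ ?_
    · rintro (l | i) (l' | j) <;> rw [Matrix.add_apply, add_sub_cancel_left]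
      exacts [(a l _).1 ▸ dvd_zero _, (a l _).1 ▸ dvd_zero _, (a l' _).2 ▸ dvd_zero _,
        by simpa only [prs, Sum.elim_inr, h3 p' l1 l2, ly] using b i j]
    · rintro (l | i) (l' | j) h <;> rw [Matrix.add_apply, add_eq_left]
      exacts [(a l _).1, (a l _).1, (a l' _).2, absurd (by simp [BB]) h]
  let C := MX S.D n g (EQ.pr Sg p') (p' none) -
    EQ.Lm Sg c st univ (rho (KQ lv n) (bb S.D n lv) p')
  refine ⟨fun ρ => f (C + EQ.Lm Sg c st univ ρ), fun _ => hΦ _ _, fun p k0 k1 k2 => ?_⟩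
  have e := fun x => (h1 x _ (k2 x)).1.trans (h1 x _ (l2 x)).1.symm
  simp only [od, Prod.mk.injEq, funext_iff (f := fun l : Sg => _)] at e
  have e2 := nz (h4 p k0 k2) (h4 p' l0 l2) hL hQ hT hS hX hG (c := c) (fun _ => rfl) hg
    (h3 p k1 k2) (h3 p' l1 l2) fun x => ⟨(e x).2.2.1, (e x).2.2.2.1, (e x).2.2.2.2.1,
      fun l => ((e x).2.2.2.2.2 l).1, fun l => ((e x).2.2.2.2.2 l).2.1,
      fun l => ((e x).2.2.2.2.2 l).2.2.1, fun l => ((e x).2.2.2.2.2 l).2.2.2⟩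
  have e1 : (Φ fun i => p (some i)) = f := hC _ _ fun i => ⟨h6 _ _ (k2 (some i)),
    h6 _ _ (l2 (some i)), (h3 p k1 k2 _).trans (h3 p' l1 l2 _).symm, (e _).1⟩
  have e3 : ∀ H, f (MX S.D n g (EQ.pr Sg p) (p none) + H) =
      f (C + (EQ.Lm Sg c st univ (rho (KQ lv n) (bb S.D n lv) p) + H)) := fun H => by
    rw [← hf (C + _) _ e2]
    congr 1
    simp only [C]
    abel
  rw [ex_eq hA hL hG (fun _ => rfl) lv (fun H => f (C + H)) fun M H h => by
      rw [← add_assoc, hf _ _ h], ← EQ.ex_shift _ (fun H => f (C + H)) (EQ.Lm_mem (c := c) (A := univ)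
      hG.lr.inv (hL.one Λ _ g) (by simp [BB]) (rho (KQ lv n) (bb S.D n lv) p))]
  simp only [e1, e3]
  simpa using e3 0

end Pool.Agent.MP_1246c0_nt.H25
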