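import Pool.Agent.MP_1246c0_nt.H25.SpecA
import Pool.Agent.MP_1246c0_nt.H83.RA

/-! Existence of unramified quadratic extensions by duality. -/

namespace Pool.Agent.MP_1246c0_nt.H25

open NumberField IsDedekindDomain Finset Pool.Agent.MP_db5b97_nt.H85
open Pool.Agent.MP_1246c0_nt.H12

namespace EXQ

/-- a symmetric function which is additive in one variable -/
def biH {A : Type} [AddCommGroup A] (f : A → A → F2) (ha : ∀ a a' b, f (a + a') b = f a b + f a' b)
    (hs : ∀ a b, f a b = f b a) : A →+ A →+ F2 :=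
  AddMonoidHom.mk' (fun a => AddMonoidHom.mk' (f a) fun b b' => by rw [hs, ha, hs b, hs b'])
    fun a a' => AddMonoidHom.ext (ha a a')

theorem two {A B : Type} [AddCommGroup A] [AddCommGroup B] [Module F2 B] (f : A →+ B) (x : A) :
    f (2 • x) = 0 := by
  rw [map_nsmul, ← Nat.cast_smul_eq_nsmul F2, show ((2 : ℕ) : F2) = 0 from rfl, zero_smul]

variable {L : Type} [Field L] [NumberField L]

/-- the tame symbol -/
noncomputable def tH (w : Sp L) : Un L →+ Un L →+ F2 :=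
  biH (tame w) (RA.tame_add w) (RA.tame_symm w)

theorem tH_apply (w : Sp L) (a b : Un L) : tH w a b = tame w a b := rfl

/-- the sum of all symbols -/
noncomputable def dH : Un L →+ Un L →+ F2 := biH dy RA.dy_add RA.dy_symm

theorem dH_apply (a b : Un L) : dH a b = dy a b := rfl

open Classical in
/-- the real symbol -/
noncomputable def rH (ρ : L →+* ℝ) : Un L →+ Un L →+ F2 :=
  biH (fun a b => if ρ a.val < 0 ∧ ρ b.val < 0 then 1 else 0)
    (fun a a' b => by
      rw [Un.val_add, map_mul]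
      exact RA.real_add (by simp) (by simp)) fun a b => by simp only [and_comm]

omit [NumberField L] in
open Classical in
theorem rH_apply (ρ : L →+* ℝ) (a b : Un L) :
    rH ρ a b = if ρ a.val < 0 ∧ ρ b.val < 0 then 1 else 0 := rfl

omit [NumberField L] in
theorem rH_pos {ρ : L →+* ℝ} {a : Un L} (h : ¬ρ a.val < 0) (b : Un L) : rH ρ a b = 0 := by
  rw [rH_apply, if_neg fun k => h k.1]

/-- the symbols outside `S` -/
noncomputable def BB (S : Finset (Pr L 2)) : Un L →+ Un L →+ F2 :=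
  dH - ∑ w ∈ S, tH w.1 - ∑ ρ, rH ρ

theorem BB_apply (S : Finset (Pr L 2)) (a b : Un L) :
    BB S a b = dy a b - ∑ w ∈ S, tame w.1 a b - ∑ ρ, rH ρ a b := by
  simp only [BB, AddMonoidHom.sub_apply, AddMonoidHom.finsetSum_apply, dH_apply, tH_apply]

theorem BB_symm (S : Finset (Pr L 2)) (a b : Un L) : BB S a b = BB S b a := by
  simp only [BB_apply, RA.dy_symm a b, RA.tame_symm _ a b, rH_apply, and_comm]

theorem BB_sum {S T : Finset (Pr L 2)} (hT : Disjoint S T) {a b : Un L}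
    (h : ∀ w ∉ S, w ∉ T → tame w.1 a b = 0) : BB S a b = ∑ w ∈ T, tame w.1 a b := by
  classical
  rw [BB_apply, dy, finsum_eq_sum_of_support_subset (s := S ∪ T) _ fun w hw => by
    by_contra k
    simp only [coe_union, Set.mem_union, mem_coe, not_or] at k
    exact hw (h w k.1 k.2), sum_union hT, finsum_eq_sum_of_fintype]
  simp only [rH_apply]
  ring

theorem tame_unit {w : Sp L} {u : Un L} (h : ord w u = 0) (a : Un L) :
    tame w u a = ord w a • qv w u.val := by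
  rw [RA.tame_eq, RA.tu, h, zero_mul, zero_smul, zero_smul, zero_add, sub_zero, RA.qv_zsmul w h]

theorem near {w : Sp L} {b t : Un L} (h : w.valuation L ((b - t).val - 1) < 1) :
    ord w b = ord w t ∧ ∀ a, tame w b a = tame w t a := by
  have h2 : ord w (b - t) = 0 := by
    rw [ord_eq_zero_iff, show (b - t).val = 1 + ((b - t).val - 1) by ring]
    exact Valuation.map_one_add_of_lt _ h
  refine ⟨by rwa [map_sub, sub_eq_zero] at h2, fun a => ?_⟩
  have := tame_unit h2 a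
  rwa [RA.qv_one w h, smul_zero, ← tH_apply, map_sub, AddMonoidHom.sub_apply, sub_eq_zero] at this

theorem tame_zero (w : Sp L) (a : Un L) : tame w 0 a = 0 := by
  rw [← tH_apply, map_zero, AddMonoidHom.zero_apply]

theorem tame_two (w : Sp L) (x y a : Un L) : tame w (x - 2 • y) a = tame w x a := by
  rw [← tH_apply, map_sub, two, sub_zero, tH_apply]

theorem unif (w : Sp L) : ∃ π : Un L, ord w π = 1 := by
  obtain ⟨π, h⟩ := w.valuation_exists_uniformizer L
  refine ⟨Un.mk π fun k => WithZero.exp_ne_zero (by rw [← h, k, map_zero]), ?_⟩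
  rw [ord_apply, Un.val_mk, h, WithZero.log_exp, neg_neg]

theorem nonres (w : Pr L 2) : ∃ a : Un L, ord w.1 a = 0 ∧ qv w.1 a.val = 1 := by
  classical
  have := w.1.isMaximal
  let _ : Field (𝓞 L ⧸ w.1.asIdeal) := Ideal.Quotient.field _
  have : Finite (𝓞 L ⧸ w.1.asIdeal) := Ideal.finiteQuotientOfFreeOfNeBot _ w.1.ne_bot
  obtain ⟨a, ha⟩ := FiniteField.exists_nonsquare (F := 𝓞 L ⧸ w.1.asIdeal) fun h => w.2 (by
    rw [← Ideal.Quotient.eq_zero_iff_mem, map_natCast]
    exact (ringChar.spec _ 2).2 h.dvd)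
  obtain ⟨a, rfl⟩ := Ideal.Quotient.mk_surjective a
  have h0 : a ∉ w.1.asIdeal := fun k => ha (by
    rw [Ideal.Quotient.eq_zero_iff_mem.2 k]
    exact IsSquare.zero)
  refine ⟨mkI a fun k => h0 (k ▸ zero_mem _), ?_, ?_⟩
  · rw [ord_eq_zero_iff, val_mkI, val_eq_one_iff]
    exact h0
  · rw [val_mkI, RA.qv_coe w.1 _ Ideal.Quotient.mk_surjective Ideal.mk_ker.symm, if_neg ha]

theorem loc {w : Sp L} {b π : Un L} (hπ : ord w π = 1) (h1 : (ord w b : F2) = 0)
    (h2 : tame w b π = 0) (a : Un L) : tame w b a = 0 := by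
  obtain ⟨k, hk⟩ := (ZMod.intCast_zmod_eq_zero_iff_dvd _ 2).1 h1
  have h : ord w (b - 2 • k • π) = 0 := by
    rw [map_sub, map_nsmul, map_zsmul, hπ, hk]
    simp
  rw [← tame_two w b (k • π), tame_unit h, hπ, one_smul] at h2
  rw [← tame_two w b (k • π), tame_unit h, h2, smul_zero]

variable (L) in
theorem exS : ∃ S : Finset (Pr L 2), ∀ w : Pr L 2, ∃ b : Un L, ∀ v ∉ S,
    ord v.1 b = Finsupp.single w (1 : ℤ) v := by
  classical
  have : Finite (Dv L 2 ⧸ (Ru L 2).map (dv L 2)) :=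
    (AddSubgroup.finiteIndex_iff_finite_quotient).1 ⟨Ru_index_ne⟩
  have := Fintype.ofFinite (Dv L 2 ⧸ (Ru L 2).map (dv L 2))
  refine ⟨univ.biUnion fun q : Dv L 2 ⧸ (Ru L 2).map (dv L 2) => q.out.support, fun w => ?_⟩
  obtain ⟨b, -, e⟩ := QuotientAddGroup.eq.1 (QuotientAddGroup.out_eq'
    (QuotientAddGroup.mk (s := (Ru L 2).map (dv L 2)) (Finsupp.single w (1 : ℤ))))
  refine ⟨b, fun v hv => ?_⟩
  rw [← dv_apply, e, Finsupp.add_apply, Finsupp.neg_apply, Finsupp.notMem_support_iff.1 fun k =>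
    hv (mem_biUnion.2 ⟨_, mem_univ _, k⟩), neg_zero, zero_add]

theorem chi_dv (χ : Dv L 2 →+ F2) {T : Finset (Pr L 2)} {b : Un L} (h : ∀ v ∉ T, ord v.1 b = 0) :
    χ (dv L 2 b) = ∑ v ∈ T, ord v.1 b • χ (Finsupp.single v 1) := by
  classical
  simp only [← map_zsmul, ← map_sum]
  congr 1
  ext v
  simp only [Finsupp.smul_single, smul_eq_mul, mul_one, Finsupp.finsetSum_apply,
    Finsupp.single_apply, sum_ite_eq', dv_apply]
  split_ifs with k
  · rfl
  · exact h v k

theorem wa (hW : SWA) (S : Finset (Pr L 2)) (m : ℕ) (t : Pr L 2 → Un L) (x : Un L)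
    (A : Set (L →+* ℝ)) : ∃ b : Un L,
      (∀ w ∈ S, ord w.1 b = ord w.1 (t w) ∧ ∀ a, tame w.1 b a = tame w.1 (t w) a) ∧
      b - x ∈ Ray L 2 m ∧ ∀ ρ : L →+* ℝ, ρ b.val < 0 ↔ ρ ∈ A := by
  classical
  have := Pl_finite (F := L) two_ne_zero
  have := Fintype.ofFinite (Pl L 2)
  obtain ⟨M, hM⟩ := Finite.exists_le fun w : Pl L 2 =>
    (ord w.1 (m • Un.mk ((2 : ℕ) : L) (by simp))).toNat
  obtain ⟨b, h1, h2⟩ := hW L (S.image Subtype.val ∪ (univ : Finset (Pl L 2)).image Subtype.val)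
    (fun w => if h : ((2 : ℕ) : 𝓞 L) ∈ w.asIdeal then x else t ⟨w, h⟩) (M + 1) A
  have lt : WithZero.exp (-((M + 1 : ℕ) : ℤ)) < 1 := by
    rw [← WithZero.exp_zero, WithZero.exp_lt_exp]
    omega
  have h3 : ∀ w : Sp L, ((2 : ℕ) : 𝓞 L) ∈ w.asIdeal →
      w.valuation L ((b - x).val - 1) ≤ WithZero.exp (-((M + 1 : ℕ) : ℤ)) := fun w hw => by
    have := h1 w (mem_union_right _ (mem_image.2 ⟨⟨w, hw⟩, mem_univ (α := Pl L 2) _, rfl⟩))
    rwa [dif_pos hw] at this
  refine ⟨b, fun w hw => near ?_, ⟨fun w hw => ?_, fun w hw => (h3 w hw).trans ?_⟩, h2⟩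
  · have := h1 w.1 (mem_union_left _ (mem_image_of_mem _ hw))
    rw [dif_neg w.2] at this
    exact this.trans_lt lt
  · rw [show (b - x).val = 1 + ((b - x).val - 1) by ring]
    exact Valuation.map_one_add_of_lt _ ((h3 w hw).trans_lt lt)
  · have e := val_eq_exp w (m • Un.mk ((2 : ℕ) : L) (by simp))
    rw [Un.val_nsmul, Un.val_mk, map_pow] at e
    rw [e, WithZero.exp_le_exp]
    have := hM ⟨w, hw⟩
    simp only at this
    omega

/-- the local classes at the primes of `S` and at the real places -/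
noncomputable def Ph (S : Finset (Pr L 2)) (π : Sp L → Un L) :
    Un L →+ (S → F2 × F2) × ((L →+* ℝ) → F2) :=
  (AddMonoidHom.pi fun w : S =>
    ((Int.castAddHom F2).comp (ord w.1.1)).prod ((tH w.1.1).flip (π w.1.1))).prod
    (AddMonoidHom.pi fun ρ => rH ρ (RA.m1 L))

theorem Ph_zero {S : Finset (Pr L 2)} {π : Sp L → Un L} {b : Un L} (h : Ph S π b = 0) :
    (∀ w ∈ S, (ord w.1 b : F2) = 0 ∧ tame w.1 b (π w.1) = 0) ∧ ∀ ρ : L →+* ℝ, ¬ρ b.val < 0 :=
  ⟨fun w hw => Prod.ext_iff.1 (congrFun (Prod.ext_iff.1 h).1 ⟨w, hw⟩), fun ρ k => by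
    have : rH ρ (RA.m1 L) b = 0 := congrFun (Prod.ext_iff.1 h).2 ρ
    rw [rH_apply, if_pos ⟨by simp, k⟩] at this
    exact one_ne_zero this⟩

theorem Ph_index (S : Finset (Pr L 2)) (π : Sp L → Un L) : (Ph S π).ker.index ≠ 0 ∧
    (Ph S π).ker.index ≤ 4 ^ S.card * 2 ^ Module.finrank ℚ L := by
  rw [AddSubgroup.index_ker]
  refine ⟨Nat.card_pos.ne', (AddSubgroup.card_le_card_addGroup _).trans ?_⟩
  have h : Nat.card (L →+* ℝ) ≤ Module.finrank ℚ L := by
    rw [← Embeddings.card L ℂ, ← Nat.card_eq_fintype_card]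
    exact Nat.card_le_card_of_injective (fun ρ => Complex.ofRealHom.comp ρ) fun ρ ρ' e =>
      RingHom.ext fun x => Complex.ofReal_injective (RingHom.congr_fun e x)
  rw [Nat.card_prod, Nat.card_fun, Nat.card_fun, Nat.card_prod, Nat.card_zmod,
    Nat.card_eq_fintype_card (α := S), Fintype.card_coe]
  exact Nat.mul_le_mul_left _ (Nat.pow_le_pow_right two_pos h)

theorem mem_Su {S : Finset (Pr L 2)} {x : Un L} : x ∈ Su L S ↔ ∀ w ∉ S, ord w.1 x = 0 := by
  simp only [Su, AddSubgroup.mem_iInf, AddMonoidHom.mem_ker, Subtype.forall]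

theorem ray_db {m : ℕ} {y : Un L} (h : y ∈ Ray L 2 m ⊔ Db ⊤) :
    ∃ z, y - 2 • z ∈ Ray L 2 m := by
  obtain ⟨r, hr, _, ⟨z, -, rfl⟩, rfl⟩ := AddSubgroup.mem_sup.1 h
  exact ⟨z, by simpa using hr⟩

end EXQ

open EXQ in
theorem rowEXQ : OfEXQ := by
  intro _ hSQ hY1 hY2 hW hI L _ _ χ hR hRec hχ
  classical
  obtain ⟨m0, hm0⟩ := hRec
  obtain ⟨m, hm3, hm⟩ : ∃ m, 3 ≤ m ∧ ∀ a ∈ Ray L 2 m, ∀ b, dy a b = 0 :=
    ⟨max m0 3, le_max_right _ _, fun a ha => hm0 a (Ray_anti (le_max_left _ _) ha)⟩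
  obtain ⟨S, hS⟩ := exS L
  choose bw hbw using hS
  choose π hπ using unif (L := L)
  have hB : ∀ x ∈ Su L S, ∀ w ∉ S, BB S x (bw w) = qv w.1 x.val := fun x hx w hw => by
    rw [BB_sum (T := {w}) (disjoint_singleton_right.2 hw) fun v hv k => by
      rw [tame_unit (mem_Su.1 hx v hv), hbw w v hv,
        Finsupp.single_eq_of_ne (by simpa using k), zero_smul],
      sum_singleton, tame_unit (mem_Su.1 hx w hw), hbw w w hw, Finsupp.single_eq_same, one_smul]
  obtain ⟨h1, h2⟩ := hI (Un L) ((Ray L 2 m ⊔ Db ⊤) ⊓ (Ph S π).ker) (Su L S) (BB S)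
    (2 ^ (S.card + Nat.card (Pl L 2) + Module.finrank ℚ L)) (BB_symm S)
    (fun z hz => by
      obtain ⟨y, hy⟩ := ray_db hz.1
      have k : Ph S π (z - 2 • y) = 0 := by rw [map_sub, two, sub_zero]; exact hz.2
      obtain ⟨k1, k2⟩ := Ph_zero k
      have e : BB S z = BB S (z - 2 • y) := by rw [map_sub, two, sub_zero]
      ext b
      rw [e, BB_apply, hm _ hy,
        sum_eq_zero fun w hw => loc (hπ _) (k1 w hw).1 (k1 w hw).2 b,
        sum_eq_zero fun ρ _ => rH_pos (k2 ρ) b]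
      simp)
    (fun x hx y hy => by
      rw [BB_sum (T := ∅) (disjoint_empty_right _) fun v hv _ => by
        rw [tame_unit (mem_Su.1 hx v hv), mem_Su.1 hy v hv, zero_smul], sum_empty])
    (fun x hx h => by
      obtain ⟨z, rfl⟩ := hSQ L x (S.finite_toSet.subset fun w hw => by_contra fun k =>
        hw (by rw [← hB x hx w k, h, AddMonoidHom.zero_apply]))
      refine ⟨z, mem_Su.2 fun w hw => ?_, rfl⟩
      simpa using mem_Su.1 hx w hw)
    (fun x => ⟨AddSubgroup.mem_sup_right ⟨x, trivial, rfl⟩, two _ x⟩)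
    (AddSubgroup.index_inf_ne_zero (hY1 L m).1 (Ph_index S π).1)
    (AddSubgroup.index_inf_le.trans ((Nat.mul_le_mul (hY1 L m).2 (Ph_index S π).2).trans_eq (by
      simp only [show (4 : ℕ) = 2 ^ 2 from rfl, ← pow_mul, ← pow_add]
      congr 1
      ring)))
    (hY2 L S hR)
  obtain ⟨lam, hlam⟩ : ∃ lam : Un L →+ F2, ∀ b,
      lam b = ∑ v ∈ S, ord v.1 b • χ (Finsupp.single v 1) :=
    ⟨∑ v ∈ S, (zmultiplesHom F2 (χ (Finsupp.single v 1))).comp (ord v.1), fun b => by
      simp [AddMonoidHom.finsetSum_apply]⟩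
  obtain ⟨x, hx, hBx⟩ := h1 lam
    (fun z hz => by
      rw [hlam]
      exact sum_eq_zero fun w hw => by rw [zsmul_eq_mul, ((Ph_zero hz.2).1 w hw).1, zero_mul])
    (fun y hy => by rw [hlam, ← chi_dv χ (mem_Su.1 hy), hχ])
  have hE : ∀ b ∈ Ray L 2 m, ∑ v ∈ S, (ord v.1 b • χ (Finsupp.single v 1) + tame v.1 b x) +
      ∑ ρ, rH ρ b x = 0 := fun b hb => by
    have := BB_apply S b x
    rw [BB_symm, hBx, hlam, hm b hb] at this
    rw [sum_add_distrib, this]
    ring
  have hpos : ∀ ρ : L →+* ℝ, ¬ρ x.val < 0 := fun ρ k => by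
    obtain ⟨b, b1, b2, b3⟩ := wa hW S m 0 0 {ρ}
    have := hE b (by simpa using b2)
    rw [sum_eq_zero fun w hw => by
      rw [(b1 w hw).1, (b1 w hw).2, Pi.zero_apply, map_zero, tame_zero, zero_smul, add_zero],
      sum_eq_single ρ (fun ρ' _ h => rH_pos (fun k' => h ((b3 ρ').1 k')) x) (by simp), rH_apply,
      if_pos ⟨(b3 ρ).2 rfl, k⟩, zero_add] at this
    exact one_ne_zero this
  have hr : ∀ b, ∑ ρ, rH ρ b x = 0 := fun b => sum_eq_zero fun ρ _ => by
    rw [rH_apply, if_neg fun k => hpos ρ k.2]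
  have hK : ∀ (w : Pr L 2) (a : Un L), tame w.1 x a = ord w.1 a • χ (Finsupp.single w 1) := by
    intro w a
    by_cases hw : w ∈ S
    · obtain ⟨b, b1, b2, -⟩ := wa hW S m (Pi.single w a) 0 ∅
      have := hE b (by simpa using b2)
      rw [hr, add_zero, sum_eq_single_of_mem w hw fun v hv k => by
        rw [(b1 v hv).1, (b1 v hv).2, Pi.single_eq_of_ne k, map_zero, tame_zero, zero_smul,
          add_zero], (b1 w hw).1, (b1 w hw).2, Pi.single_eq_same, RA.tame_symm] at this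
      rw [eq_neg_of_add_eq_zero_right this, ZMod.neg_eq_self_mod_two]
    · have := chi_dv χ (T := insert w S) (b := bw w) fun v hv => by
        rw [mem_insert, not_or] at hv
        rw [hbw w v hv.2, Finsupp.single_eq_of_ne hv.1]
      rw [hχ, sum_insert hw, ← hlam, hbw w w hw, Finsupp.single_eq_same, one_smul, ← hBx,
        hB x hx w hw] at this
      rw [tame_unit (mem_Su.1 hx w hw), eq_neg_of_add_eq_zero_right this.symm,
        ZMod.neg_eq_self_mod_two]
  have hd : ∀ b, dy x b = 0 := fun b => by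
    have := BB_apply S x b
    rw [hBx, hlam, sum_eq_zero fun ρ _ => rH_pos (hpos ρ) b] at this
    simp only [hK] at this
    rw [sub_zero, eq_sub_iff_add_eq, ← two_nsmul, ← Nat.cast_smul_eq_nsmul F2,
      show ((2 : ℕ) : F2) = 0 from rfl, zero_smul] at this
    exact this.symm
  obtain ⟨y, y1, y2, y3⟩ := wa hW S m 0 x ∅
  obtain ⟨z, hz⟩ := ray_db (h2 y (by
    ext b
    rw [BB_apply, ← sub_add_cancel y x, RA.dy_add, hm _ y2, hd, sub_add_cancel,
      sum_eq_zero fun w hw => by rw [(y1 w hw).2, Pi.zero_apply, tame_zero],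
      sum_eq_zero fun ρ _ => rH_pos (y3 ρ).1 b]
    simp)).1
  refine ⟨x - 2 • z, Ray_anti hm3 ?_, fun ρ => ?_, fun w => ⟨?_, fun u hu => ?_⟩⟩
  · convert sub_mem hz y2 using 1
    abel
  · rw [Un.val_sub, Un.val_nsmul, map_div₀, map_pow]
    exact div_pos ((not_lt.1 (hpos ρ)).lt_of_ne' (by simp)) (sq_pos_of_ne_zero (by simp))
  · obtain ⟨a, a0, a1⟩ := nonres w
    have := tame_unit a0 (x - 2 • z)
    rw [RA.tame_symm, tame_two, hK, a0, zero_smul, a1, zsmul_one] at this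
    exact (ZMod.intCast_eq_zero_iff_even).1 this.symm
  · have := tame_unit hu (π w.1)
    rw [tame_two, tame_two, hK, hπ, one_smul, one_smul] at this
    exact this.symm

end Pool.Agent.MP_1246c0_nt.H25
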